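import Pool.Agent.helper99.VD.SpecU

/-!
# Row vd:CNVA (MP_07c750_an): staying close
-/

set_option autoImplicit false

open scoped ENNReal
open MeasureTheory Filter Set

namespace Pool.Agent.VD

noncomputable section

theorem CNVA_nonneg {Γ X S : Type} [Group Γ] [MulAction Γ X] [MulAction Γ S] {C c0 : ℝ} {Y : SY X S}
    (h : OKS Γ C c0 Y) (p q : S) : 0 ≤ Y.dS p q := by
  have h1 := h.dSt p q p
  rw [h.dS0, h.dSs q p] at h1
  linarith

theorem CNVA_En {Γ X S : Type} [Group Γ] [MulAction Γ X] [MulAction Γ S] {C c0 : ℝ} {Y : SY X S}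
    (h : OKS Γ C c0 Y) {t r : ℝ} {N : ℕ} {w : ℕ → S} (hN : 1 ≤ N) (hJ : JPA Y t r N w) (j : ℕ) (hj : j ≤ N) :
    |Y.En (w j)| ≤ r := by
  rcases Nat.lt_or_ge j N with h1 | h1
  · exact (hJ j h1).2.1
  · obtain ⟨i, rfl⟩ : ∃ i, j = i + 1 := ⟨j - 1, by omega⟩
    exact (hJ i (by omega)).2.2

/-- one jump at most -/
theorem CNVA_jump {Γ X S : Type} [Group Γ] [MulAction Γ X] [MulAction Γ S] {C c0 : ℝ} {Y : SY X S}
    (h : OKS Γ C c0 Y) (hC : 1 ≤ C) {t r ρ1 : ℝ} {N : ℕ} {w : ℕ → S} (hN : 1 ≤ N) (hJ : JPA Y t r N w) (ht : 1 ≤ t)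
    (hr : 0 < r) (hrρ : r ≤ ρ1) (hρc : ρ1 ≤ c0) (s v : ℝ) (hs : 0 ≤ s) (hv : 0 ≤ v) (hvt : v ≤ t) (hsv : s + v ≤ N * t)
    (hsm : C * Real.exp (C * v) * ρ1 ≤ c0) :
    Y.dS (frA Y t w (s + v)) (Y.fl v (frA Y t w s)) ≤ C * Real.exp (C * v) * ρ1 ∧
      |Y.En (frA Y t w (s + v))| ≤ c0 ∧ |Y.En (Y.fl v (frA Y t w s))| ≤ c0 := by
  have ht0 : 0 < t := by linarith
  have hC0 : 0 < C := by linarith
  have hρ : 0 < ρ1 := lt_of_lt_of_le hr hrρ
  have hsN : s ≤ N * t := by linarith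
  have hEn := CNVA_En h hN hJ
  set j := ⌊s / t⌋₊ with hj
  have hj1 : (j : ℝ) * t ≤ s := by
    have := Nat.floor_le (div_nonneg hs ht0.le)
    rwa [← hj, le_div_iff₀ ht0] at this
  have hj2 : s < (j + 1) * t := by
    have := Nat.lt_floor_add_one (s / t)
    rwa [← hj, div_lt_iff₀ ht0] at this
  set j' := ⌊(s + v) / t⌋₊ with hj'
  have hj'1 : (j' : ℝ) * t ≤ s + v := by
    have := Nat.floor_le (div_nonneg (add_nonneg hs hv) ht0.le)
    rwa [← hj', le_div_iff₀ ht0] at this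
  have hj'2 : s + v < (j' + 1) * t := by
    have := Nat.lt_floor_add_one ((s + v) / t)
    rwa [← hj', div_lt_iff₀ ht0] at this
  have hjN : j ≤ N := by
    have h1 : (j : ℝ) * t ≤ N * t := by linarith
    have h2 := le_of_mul_le_mul_right h1 ht0
    exact_mod_cast h2
  have hj'N : j' ≤ N := by
    have h1 : (j' : ℝ) * t ≤ N * t := by linarith
    have h2 := le_of_mul_le_mul_right h1 ht0
    exact_mod_cast h2
  have hjj : j ≤ j' := by
    have h1 : (j : ℝ) * t < (j' + 1 : ℕ) * t := by push_cast; linarith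
    have h2 := lt_of_mul_lt_mul_right h1 ht0.le
    have h3 : j < j' + 1 := by exact_mod_cast h2
    omega
  have hjj' : j' ≤ j + 1 := by
    have h1 : (j' : ℝ) * t < (j + 2 : ℕ) * t := by push_cast; linarith
    have h2 := lt_of_mul_lt_mul_right h1 ht0.le
    have h3 : j' < j + 2 := by exact_mod_cast h2
    omega
  have hEj : |Y.En (w j)| ≤ c0 := (hEn j hjN).trans (hrρ.trans hρc)
  have hEj' : |Y.En (w j')| ≤ c0 := (hEn j' hj'N).trans (hrρ.trans hρc)
  have hA : frA Y t w (s + v) = Y.fl (s + v - j' * t) (w j') := rfl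
  have hB : frA Y t w s = Y.fl (s - j * t) (w j) := rfl
  have hEB : |Y.En (frA Y t w s)| ≤ c0 := by
    rw [hB, h.Enf _ _ hEj]
    exact hEj
  have hB' : Y.fl v (frA Y t w s) = Y.fl (v + (s - j * t)) (w j) := by
    rw [hB, h.fla _ _ _ hEj]
  have hE1 : |Y.En (frA Y t w (s + v))| ≤ c0 := by
    rw [hA, h.Enf _ _ hEj']
    exact hEj'
  have hE2 : |Y.En (Y.fl v (frA Y t w s))| ≤ c0 := by
    rw [h.Enf _ _ hEB]
    exact hEB
  refine ⟨?_, hE1, hE2⟩
  have hpos : 0 ≤ C * Real.exp (C * v) * ρ1 := by positivity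
  rcases (by omega : j' = j ∨ j' = j + 1) with h' | h'
  · -- no jump
    have e1 : frA Y t w (s + v) = Y.fl v (frA Y t w s) := by
      rw [hA, hB', h']
      congr 1
      ring
    rw [e1, h.dS0]
    exact hpos
  · -- one jump
    have hjlt : j < N := by omega
    obtain ⟨hjp, -, -⟩ := hJ j hjlt
    rw [h'] at hj'1 hEj'
    push_cast at hj'1
    set v2 := s + v - (j + 1) * t with hv2d
    have hv2 : 0 ≤ v2 := by linarith
    have hv2v : v2 ≤ v := by
      rw [hv2d]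
      linarith
    have e1 : Y.fl v (frA Y t w s) = Y.fl v2 (Y.fl t (w j)) := by
      rw [hB', ← h.fla _ _ _ hEj]
      congr 1
      rw [hv2d]
      ring
    have e2 : frA Y t w (s + v) = Y.fl v2 (w (j + 1)) := by
      rw [hA, h', hv2d]
      push_cast
      rfl
    have hEt : |Y.En (Y.fl t (w j))| ≤ c0 := by
      rw [h.Enf _ _ hEj]
      exact hEj
    have hexp : Real.exp (C * |v2|) ≤ Real.exp (C * v) := by
      rw [abs_of_nonneg hv2]
      exact Real.exp_le_exp.2 (mul_le_mul_of_nonneg_left hv2v hC0.le)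
    have hle : C * Real.exp (C * |v2|) * r ≤ C * Real.exp (C * v) * ρ1 := by
      have a1 : C * Real.exp (C * |v2|) ≤ C * Real.exp (C * v) := mul_le_mul_of_nonneg_left hexp hC0.le
      exact mul_le_mul a1 hrρ hr.le (by positivity)
    have hd : Y.dS (w (j + 1)) (Y.fl t (w j)) ≤ r := by
      rw [h.dSs]
      exact hjp
    have key := h.gro (w (j + 1)) (Y.fl t (w j)) v2 r hEj' hEt hr hd (hle.trans hsm)
    rw [e1, e2]
    exact key.trans hle

theorem CNVA_rvb {Γ X S : Type} [Group Γ] [MulAction Γ X] [MulAction Γ S] {C c0 : ℝ} {Y : SY X S}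
    (h : OKS Γ C c0 Y) (hC : 1 ≤ C) (b : Bool) (p q : S) :
    Y.dS (rvb Y b p) (rvb Y b q) ≤ C * Y.dS p q ∧ Y.En (rvb Y b p) = Y.En p := by
  have h0 := CNVA_nonneg h p q
  cases b
  · refine ⟨?_, rfl⟩
    show Y.dS p q ≤ C * Y.dS p q
    nlinarith
  · refine ⟨?_, ?_⟩
    · show Y.dS (Y.rv p) (Y.rv q) ≤ C * Y.dS p q
      exact h.rvd p q
    · show Y.En (Y.rv p) = Y.En p
      exact h.Enr p

theorem CNVA_proof : CNVA_stmt := by
  intro C c0 hC hc0 hc1
  have hC0 : 0 < C := by linarith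
  refine ⟨C, hC, fun C2 hC2 => ?_⟩
  set K : ℝ := C * C2 + C ^ 3 * Real.exp C with hK
  have hexpC : 1 ≤ Real.exp C := Real.one_le_exp hC0.le
  have hC3 : 1 ≤ C ^ 3 := one_le_pow₀ hC
  have hC2' : 0 < C2 := by linarith
  have hK1 : 1 ≤ K := by
    have a1 : 1 ≤ C * C2 := by nlinarith
    have a2 : 0 ≤ C ^ 3 * Real.exp C := by positivity
    rw [hK]
    linarith
  have hK0 : 0 < K := by linarith
  refine ⟨K, min (min (1 / 8) c0) ((c0 / K) ^ 2), hK1, lt_min (lt_min (by norm_num) hc0) (by positivity),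
    (min_le_left _ _).trans (min_le_left _ _), (min_le_left _ _).trans (min_le_right _ _), ?_⟩
  intro Γ X S _ _ _ Y ρ1 h hρ hρ10
  have hρc : ρ1 ≤ c0 := hρ10.trans ((min_le_left _ _).trans (min_le_right _ _))
  set q : ℝ := √ρ1 with hq
  have hq0 : 0 < q := Real.sqrt_pos.2 hρ
  have hqq : ρ1 = q * q := (Real.mul_self_sqrt hρ.le).symm
  have hqr : ρ1 ^ (-(1 / 2) : ℝ) = q⁻¹ := by
    rw [Real.rpow_neg hρ.le, ← Real.sqrt_eq_rpow]
  have hqh : ρ1 ^ (1 / 2 : ℝ) = q := by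
    rw [← Real.sqrt_eq_rpow]
  have hqm : K * q ≤ c0 := by
    have h1 : q ≤ c0 / K := by
      rw [hq]
      apply Real.sqrt_le_iff.2
      exact ⟨by positivity, hρ10.trans (min_le_right _ _)⟩
    rw [le_div_iff₀ hK0] at h1
    linarith
  have hρe : ∀ u : ℝ, Real.exp (C * u) ≤ ρ1 ^ (-(1 / 2) : ℝ) → ρ1 * Real.exp (C * u) ≤ q := by
    intro u hu
    rw [hqr] at hu
    calc ρ1 * Real.exp (C * u) ≤ ρ1 * q⁻¹ := mul_le_mul_of_nonneg_left hu hρ.le
      _ = q := by rw [hqq]; field_simp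
  have hCC : C * C2 * q ≤ K * q := by
    apply mul_le_mul_of_nonneg_right _ hq0.le
    have : 0 ≤ C ^ 3 * Real.exp C := by positivity
    rw [hK]
    linarith
  have hCE : C ^ 3 * Real.exp C * q ≤ K * q := by
    apply mul_le_mul_of_nonneg_right _ hq0.le
    have : 0 ≤ C * C2 := by positivity
    rw [hK]
    linarith
  rw [hqh]
  refine ⟨?_, ?_⟩
  · -- (1)
    intro p z s hp hz hs hd
    have h1 : C * Real.exp (C * |s|) * (C2 * ρ1) ≤ C * C2 * q := by
      have a1 := mul_le_mul_of_nonneg_left (hρe _ hs) (by positivity : 0 ≤ C * C2)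
      calc C * Real.exp (C * |s|) * (C2 * ρ1) = C * C2 * (ρ1 * Real.exp (C * |s|)) := by ring
        _ ≤ C * C2 * q := a1
    have h2 := h.gro p z s (C2 * ρ1) hp hz (by positivity) hd (h1.trans (hCC.trans hqm))
    exact h2.trans (h1.trans hCC)
  · -- (2)
    intro t r N w ht hr hrρ hN hJ s v x b hs hv hvt hsv he1 he2 hvx
    have hv1 := hρe v he1
    have hx1 := hρe |x| he2
    have a0 : C * Real.exp (C * v) * ρ1 ≤ C * q := by
      calc C * Real.exp (C * v) * ρ1 = C * (ρ1 * Real.exp (C * v)) := by ring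
        _ ≤ C * q := mul_le_mul_of_nonneg_left hv1 hC0.le
    have aC : C * q ≤ K * q := by
      refine le_trans ?_ hCC
      have : C * q * 1 ≤ C * q * C2 := mul_le_mul_of_nonneg_left hC2 (by positivity)
      linarith
    obtain ⟨d1, E1, E2⟩ := CNVA_jump h hC hN hJ ht hr hrρ hρc s v hs hv hvt hsv (a0.trans (aC.trans hqm))
    obtain ⟨d2, E3⟩ := CNVA_rvb h hC b (frA Y t w (s + v)) (Y.fl v (frA Y t w s))
    obtain ⟨-, E4⟩ := CNVA_rvb h hC b (Y.fl v (frA Y t w s)) (Y.fl v (frA Y t w s))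
    have F1 : |Y.En (rvb Y b (frA Y t w (s + v)))| ≤ c0 := by
      rw [E3]
      exact E1
    have F2 : |Y.En (rvb Y b (Y.fl v (frA Y t w s)))| ≤ c0 := by
      rw [E4]
      exact E2
    have d3 : Y.dS (rvb Y b (frA Y t w (s + v))) (rvb Y b (Y.fl v (frA Y t w s))) ≤
        C * (C * Real.exp (C * v) * ρ1) := d2.trans (mul_le_mul_of_nonneg_left d1 hC0.le)
    rcases hvx with hx | hv'
    · rw [hx, h.fl0 _ F1, h.fl0 _ F2]
      refine d3.trans ?_
      calc C * (C * Real.exp (C * v) * ρ1) ≤ C * (C * q) := mul_le_mul_of_nonneg_left a0 hC0.le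
        _ ≤ C ^ 3 * Real.exp C * q := by
          have b1 : C * C ≤ C ^ 3 := by nlinarith
          have b2 : C ^ 3 ≤ C ^ 3 * Real.exp C := le_mul_of_one_le_right (by positivity) hexpC
          have b3 := mul_le_mul_of_nonneg_right (b1.trans b2) hq0.le
          linarith
        _ ≤ K * q := hCE
    · have c1 : Real.exp (C * v) ≤ Real.exp C := Real.exp_le_exp.2 (by nlinarith)
      have c2 : C * (C * Real.exp (C * v) * ρ1) ≤ C ^ 2 * Real.exp C * ρ1 := by
        have b1 : C * C * Real.exp (C * v) ≤ C * C * Real.exp C := mul_le_mul_of_nonneg_left c1 (by positivity)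
        have b2 := mul_le_mul_of_nonneg_right b1 hρ.le
        calc C * (C * Real.exp (C * v) * ρ1) = C * C * Real.exp (C * v) * ρ1 := by ring
          _ ≤ C * C * Real.exp C * ρ1 := b2
          _ = C ^ 2 * Real.exp C * ρ1 := by ring
      have c3 : C * Real.exp (C * |x|) * (C ^ 2 * Real.exp C * ρ1) ≤ C ^ 3 * Real.exp C * q := by
        have b1 := mul_le_mul_of_nonneg_left hx1 (by positivity : 0 ≤ C ^ 3 * Real.exp C)
        calc C * Real.exp (C * |x|) * (C ^ 2 * Real.exp C * ρ1) =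
            C ^ 3 * Real.exp C * (ρ1 * Real.exp (C * |x|)) := by ring
          _ ≤ _ := b1
      have c4 := h.gro _ _ x (C ^ 2 * Real.exp C * ρ1) F1 F2 (by positivity) (d3.trans c2) (c3.trans (hCE.trans hqm))
      exact c4.trans (c3.trans hCE)

end

end Pool.Agent.VD
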