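import Pool.Agent.helper80.VD.SpecD

/-!
# Row vd:DPP (MP_07c750_an): the invariant distance on phase space
-/

set_option autoImplicit false

open scoped ContDiff Topology InnerProductSpace
open MeasureTheory Filter Set

namespace Pool.Agent.VD

noncomputable section

theorem DPP_lip {E E' : Type} [NormedAddCommGroup E] [NormedSpace ℝ E] [NormedAddCommGroup E'] [NormedSpace ℝ E']
    (f : E → E') (hf : ContDiff ℝ ∞ f) (s : Set E) (hs : IsCompact s) (hc : Convex ℝ s) :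
    ∃ C : ℝ, 0 ≤ C ∧ ∀ x ∈ s, ∀ y ∈ s, ‖f x - f y‖ ≤ C * ‖x - y‖ := by
  have hcont : Continuous (fderiv ℝ f) := hf.continuous_fderiv (by simp)
  obtain ⟨C, hC⟩ := hs.exists_bound_of_continuousOn (f := fderiv ℝ f) hcont.continuousOn
  refine ⟨max C 0, le_max_right _ _, fun x hx y hy => ?_⟩
  refine hc.norm_image_sub_le_of_norm_fderiv_le (𝕜 := ℝ) (f := f) (C := max C 0) ?_ ?_ hy hx
  · intro z _
    exact (hf.differentiable (by simp)) z
  · intro z hz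
    exact (hC z hz).trans (le_max_left _ _)

theorem DPP_fin {d : ℕ} {Γ : Type} [Group Γ] [MulAction Γ (V d)] {K : Set (V d)} {χ : V d → ℝ}
    (hK : FdK Γ K) (hχ : Ctf K χ) (m : ℝ) :
    {γ : Γ | ∃ x : V d, ‖x‖ ≤ m ∧ γ • x ∈ tsupport χ}.Finite := by
  have hL : IsCompact (Metric.closedBall (0 : V d) m ∪ tsupport χ) :=
    (isCompact_closedBall 0 m).union hχ.supp
  refine (hK.proper _ hL).subset ?_
  rintro γ ⟨x, hx, hx'⟩
  refine ⟨x, Or.inl ?_, Or.inr hx'⟩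
  simpa [mem_closedBall_zero_iff] using hx

theorem DPP_zero {d : ℕ} {χ : V d → ℝ} {p : P d} (h : p.1 ∉ tsupport χ) : embP χ p = 0 := by
  have : χ p.1 = 0 := image_eq_zero_of_notMem_tsupport h
  simp [embP, this]

theorem DPP_smooth {d : ℕ} {K : Set (V d)} {χ : V d → ℝ} (hχ : Ctf K χ) :
    ContDiff ℝ ∞ (embP χ : P d → V d × V d × ℝ) := by
  have h1 : ContDiff ℝ ∞ fun p : P d => χ p.1 := hχ.smooth.comp contDiff_fst
  exact (h1.smul contDiff_fst).prodMk ((h1.smul contDiff_snd).prodMk (contDiff_const.mul h1))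

theorem DPP_bdd {d : ℕ} {Γ : Type} [Group Γ] [MulAction Γ (V d)] {K : Set (V d)} {χ : V d → ℝ}
    (hK : FdK Γ K) (hχ : Ctf K χ) (p q : P d) :
    BddAbove (range fun γ : Γ => ‖embP χ (lft γ p) - embP χ (lft γ q)‖) := by
  have hfin := DPP_fin hK hχ (max ‖p.1‖ ‖q.1‖)
  refine Set.Finite.bddAbove ?_
  refine ((hfin.image fun γ : Γ => ‖embP χ (lft γ p) - embP χ (lft γ q)‖).insert 0).subset ?_
  rintro _ ⟨γ, rfl⟩
  by_cases hγ : γ ∈ {γ : Γ | ∃ x : V d, ‖x‖ ≤ max ‖p.1‖ ‖q.1‖ ∧ γ • x ∈ tsupport χ}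
  · exact Or.inr ⟨γ, hγ, rfl⟩
  · left
    have h1 : (lft γ p).1 ∉ tsupport χ := fun h => hγ ⟨p.1, le_max_left _ _, h⟩
    have h2 : (lft γ q).1 ∉ tsupport χ := fun h => hγ ⟨q.1, le_max_right _ _, h⟩
    simp only [DPP_zero h1, DPP_zero h2, sub_zero, norm_zero]

theorem DPP_tri {d : ℕ} {Γ : Type} [Group Γ] [MulAction Γ (V d)] {K : Set (V d)} {χ : V d → ℝ}
    (hK : FdK Γ K) (hχ : Ctf K χ) (p q r : P d) : dP Γ χ p r ≤ dP Γ χ p q + dP Γ χ q r := by
  refine ciSup_le fun γ => ?_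
  refine (norm_sub_le_norm_sub_add_norm_sub _ (embP χ (lft γ q)) _).trans ?_
  exact add_le_add (le_ciSup (DPP_bdd hK hχ p q) γ) (le_ciSup (DPP_bdd hK hχ q r) γ)

theorem DPP_symm {d : ℕ} {Γ : Type} [Group Γ] [MulAction Γ (V d)] {χ : V d → ℝ} (p q : P d) :
    dP Γ χ p q = dP Γ χ q p := by
  unfold dP
  exact iSup_congr fun γ => norm_sub_rev _ _

theorem DPP_nonneg {d : ℕ} {Γ : Type} [Group Γ] [MulAction Γ (V d)] {χ : V d → ℝ} (p q : P d) :
    0 ≤ dP Γ χ p q := Real.iSup_nonneg fun _ => norm_nonneg _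

theorem DPP_upper {d : ℕ} {Γ : Type} [Group Γ] [MulAction Γ (V d)] {K : Set (V d)} {χ : V d → ℝ}
    (hsm : ∀ γ : Γ, ContDiff ℝ ∞ (lft γ : P d → P d)) (hK : FdK Γ K) (hχ : Ctf K χ) (m r : ℝ) :
    ∃ C : ℝ, 1 ≤ C ∧ ∀ p q : P d, ‖p.1‖ ≤ m → ‖q.1‖ ≤ m → ‖p.2‖ ≤ r → ‖q.2‖ ≤ r →
      dP Γ χ p q ≤ C * ‖p - q‖ := by
  classical
  have hfin := DPP_fin (Γ := Γ) hK hχ m
  have hlip : ∀ γ : Γ, ∃ C : ℝ, 0 ≤ C ∧ ∀ x ∈ (Metric.closedBall (0 : V d) m ×ˢ Metric.closedBall (0 : V d) r),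
      ∀ y ∈ (Metric.closedBall (0 : V d) m ×ˢ Metric.closedBall (0 : V d) r),
        ‖embP χ (lft γ x) - embP χ (lft γ y)‖ ≤ C * ‖x - y‖ := by
    intro γ
    exact DPP_lip (fun x => embP χ (lft γ x)) ((DPP_smooth hχ).comp (hsm γ)) _
      ((isCompact_closedBall 0 m).prod (isCompact_closedBall 0 r))
      ((convex_closedBall 0 m).prod (convex_closedBall 0 r))
  choose C hC0 hC using hlip
  have hsum : 0 ≤ ∑ γ ∈ hfin.toFinset, C γ := Finset.sum_nonneg fun γ _ => hC0 γ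
  refine ⟨1 + ∑ γ ∈ hfin.toFinset, C γ, by linarith, fun p q hp hq hp2 hq2 => ?_⟩
  have hpm : p ∈ (Metric.closedBall (0 : V d) m ×ˢ Metric.closedBall (0 : V d) r) := by
    refine ⟨?_, ?_⟩
    · simpa [mem_closedBall_zero_iff] using hp
    · simpa [mem_closedBall_zero_iff] using hp2
  have hqm : q ∈ (Metric.closedBall (0 : V d) m ×ˢ Metric.closedBall (0 : V d) r) := by
    refine ⟨?_, ?_⟩
    · simpa [mem_closedBall_zero_iff] using hq
    · simpa [mem_closedBall_zero_iff] using hq2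
  refine ciSup_le fun γ => ?_
  by_cases hγ : γ ∈ {γ : Γ | ∃ x : V d, ‖x‖ ≤ m ∧ γ • x ∈ tsupport χ}
  · refine (hC γ p hpm q hqm).trans ?_
    refine mul_le_mul_of_nonneg_right ?_ (norm_nonneg _)
    have : C γ ≤ ∑ γ ∈ hfin.toFinset, C γ :=
      Finset.single_le_sum (f := C) (fun γ _ => hC0 γ) (hfin.mem_toFinset.mpr hγ)
    linarith
  · have h1 : (lft γ p).1 ∉ tsupport χ := fun h => hγ ⟨p.1, hp, h⟩
    have h2 : (lft γ q).1 ∉ tsupport χ := fun h => hγ ⟨q.1, hq, h⟩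
    simp only [DPP_zero h1, DPP_zero h2, sub_zero, norm_zero]
    exact mul_nonneg (by linarith) (norm_nonneg _)

theorem DPP_one {E : Type} [NormedAddCommGroup E] [NormedSpace ℝ E] (x y : E) (c δ R : ℝ) (hc : 5 / 6 ≤ c) (hδ : 1 - c ≤ δ / 3)
    (hc1 : c ≤ 1) (hδ0 : 0 ≤ δ) (hx : ‖x‖ ≤ R) (h : ‖x - c • y‖ ≤ δ) : ‖x - y‖ ≤ (2 + R) * δ := by
  have hc0 : 0 < c := by linarith
  have hR : 0 ≤ R := (norm_nonneg x).trans hx
  have e : c • (x - y) = (x - c • y) - (1 - c) • x := by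
    rw [smul_sub, sub_smul, one_smul]; abel
  have h1 : c * ‖x - y‖ ≤ δ + δ / 3 * R := by
    have : c * ‖x - y‖ = ‖c • (x - y)‖ := by rw [norm_smul, Real.norm_of_nonneg hc0.le]
    rw [this, e]
    refine (norm_sub_le _ _).trans (add_le_add h ?_)
    rw [norm_smul, Real.norm_of_nonneg (by linarith : (0 : ℝ) ≤ 1 - c)]
    exact mul_le_mul hδ hx (norm_nonneg _) (by positivity)
  have h2 : 5 / 6 * ‖x - y‖ ≤ c * ‖x - y‖ := mul_le_mul_of_nonneg_right hc (norm_nonneg _)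
  have h3 : ‖x - y‖ ≤ 6 / 5 * (δ + δ / 3 * R) := by linarith
  refine h3.trans ?_
  have : 0 ≤ δ * R := mul_nonneg hδ0 hR
  nlinarith

theorem DPP_proof (hGLF : GLF_stmt) (hDLL : DLL_stmt) : DPP_stmt := by
  intro d Γ _ _ K χ hK hχ
  obtain ⟨l1, lmul, lsm, -, -, -, -, -⟩ := hGLF d Γ hK.smooth
  refine ⟨DPP_bdd hK hχ, DPP_nonneg, ?_, DPP_symm, DPP_tri hK hχ, ?_, ?_, ?_, ?_, ?_, ?_⟩
  · intro p
    simp [dP]
  · intro γ p q
    unfold dP
    have : ∀ δ : Γ, ‖embP χ (lft δ (lft γ p)) - embP χ (lft δ (lft γ q))‖ =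
        (fun δ : Γ => ‖embP χ (lft δ p) - embP χ (lft δ q)‖) (Equiv.mulRight γ δ) := by
      intro δ
      simp only [Equiv.coe_mulRight, lmul]
    rw [iSup_congr this]
    exact (Equiv.mulRight γ).iSup_comp (g := fun δ : Γ => ‖embP χ (lft δ p) - embP χ (lft δ q)‖)
  · rw [continuous_iff_continuousAt]
    rintro ⟨p0, q0⟩
    obtain ⟨C, hC1, hC⟩ := DPP_upper (Γ := Γ) lsm hK hχ (max ‖p0‖ ‖q0‖ + 1) (max ‖p0‖ ‖q0‖ + 1)
    have key : ∀ᶠ z : P d × P d in 𝓝 (p0, q0),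
        ‖Function.uncurry (dP Γ χ) z - Function.uncurry (dP Γ χ) (p0, q0)‖ ≤ C * ‖z.1 - p0‖ + C * ‖z.2 - q0‖ := by
      have hball : Metric.ball (p0, q0) 1 ∈ 𝓝 (p0, q0) := Metric.ball_mem_nhds _ one_pos
      filter_upwards [hball] with z hz
      obtain ⟨p, q⟩ := z
      rw [Metric.mem_ball, Prod.dist_eq, max_lt_iff, dist_eq_norm, dist_eq_norm] at hz
      obtain ⟨hz1, hz2⟩ := hz
      simp only at hz1 hz2
      have hp : ‖p‖ ≤ max ‖p0‖ ‖q0‖ + 1 := by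
        have : ‖p‖ ≤ ‖p - p0‖ + ‖p0‖ := by
          have := norm_add_le (p - p0) p0
          rwa [sub_add_cancel] at this
        linarith [le_max_left ‖p0‖ ‖q0‖]
      have hq : ‖q‖ ≤ max ‖p0‖ ‖q0‖ + 1 := by
        have : ‖q‖ ≤ ‖q - q0‖ + ‖q0‖ := by
          have := norm_add_le (q - q0) q0
          rwa [sub_add_cancel] at this
        linarith [le_max_right ‖p0‖ ‖q0‖]
      have hp0 : ‖p0‖ ≤ max ‖p0‖ ‖q0‖ + 1 := by linarith [le_max_left ‖p0‖ ‖q0‖]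
      have hq0 : ‖q0‖ ≤ max ‖p0‖ ‖q0‖ + 1 := by linarith [le_max_right ‖p0‖ ‖q0‖]
      have e1 := hC p p0 ((norm_fst_le p).trans hp) ((norm_fst_le p0).trans hp0) ((norm_snd_le p).trans hp)
        ((norm_snd_le p0).trans hp0)
      have e2 := hC q q0 ((norm_fst_le q).trans hq) ((norm_fst_le q0).trans hq0) ((norm_snd_le q).trans hq)
        ((norm_snd_le q0).trans hq0)
      have t1 := DPP_tri hK hχ (Γ := Γ) p p0 q
      have t2 := DPP_tri hK hχ (Γ := Γ) p0 q0 q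
      have t3 := DPP_tri hK hχ (Γ := Γ) p0 p q0
      have t4 := DPP_tri hK hχ (Γ := Γ) p q q0
      have s1 := DPP_symm (Γ := Γ) (χ := χ) p p0
      have s2 := DPP_symm (Γ := Γ) (χ := χ) q q0
      simp only [Function.uncurry_apply_pair]
      rw [Real.norm_eq_abs, abs_le]
      constructor <;> linarith
    have hlim : Tendsto (fun z : P d × P d => C * ‖z.1 - p0‖ + C * ‖z.2 - q0‖) (𝓝 (p0, q0)) (𝓝 0) := by
      have hc : Continuous fun z : P d × P d => C * ‖z.1 - p0‖ + C * ‖z.2 - q0‖ := by fun_prop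
      have := hc.tendsto (p0, q0)
      simpa using this
    have := squeeze_zero_norm' key hlim
    rw [ContinuousAt]
    exact tendsto_sub_nhds_zero_iff.mp this
  · intro p q
    unfold dP
    refine iSup_congr fun γ => ?_
    have hrev : ∀ x : P d, lft γ (rev x) = rev (lft γ x) := by
      intro x
      simp [lft, rev]
    have hemb : ∀ x y : P d, ‖embP χ (rev x) - embP χ (rev y)‖ = ‖embP χ x - embP χ y‖ := by
      intro x y
      have : χ x.1 • -x.2 - χ y.1 • -y.2 = -(χ x.1 • x.2 - χ y.1 • y.2) := by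
        rw [smul_neg, smul_neg]; abel
      simp only [embP, rev, Prod.norm_def, Prod.fst_sub, Prod.snd_sub, this, norm_neg]
    rw [hrev, hrev, hemb]
  · intro r
    obtain ⟨R, hR⟩ := hK.compact.isBounded.exists_norm_le
    refine ⟨2 + max (max R 0) (max r 0), by
      have : 0 ≤ max (max R 0) (max r 0) := (le_max_right R 0).trans (le_max_left _ _)
      linarith, fun p q hp hp2 hd => ?_⟩
    have h1 := le_ciSup (DPP_bdd hK hχ p q) (1 : Γ)
    change ‖embP χ (lft 1 p) - embP χ (lft 1 q)‖ ≤ dP Γ χ p q at h1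
    rw [l1, l1] at h1
    have hχp : χ p.1 = 1 := hχ.one _ (Metric.self_subset_cthickening K hp)
    have hδ0 := DPP_nonneg (Γ := Γ) (χ := χ) p q
    set δ := dP Γ χ p q with hδ
    have c1 : ‖χ p.1 • p.1 - χ q.1 • q.1‖ ≤ δ := (norm_fst_le (embP χ p - embP χ q)).trans h1
    have c23 : ‖(embP χ p - embP χ q).2‖ ≤ δ := (norm_snd_le (embP χ p - embP χ q)).trans h1
    have c2 : ‖χ p.1 • p.2 - χ q.1 • q.2‖ ≤ δ := (norm_fst_le (embP χ p - embP χ q).2).trans c23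
    have c3 : ‖3 * χ p.1 - 3 * χ q.1‖ ≤ δ := (norm_snd_le (embP χ p - embP χ q).2).trans c23
    rw [hχp] at c1 c2 c3
    rw [one_smul] at c1 c2
    rw [Real.norm_eq_abs, abs_le] at c3
    have hb := hχ.bd q.1
    have hR0 : ‖p.1‖ ≤ max (max R 0) (max r 0) := (hR _ hp).trans ((le_max_left R 0).trans (le_max_left _ _))
    have hr0 : ‖p.2‖ ≤ max (max R 0) (max r 0) := hp2.trans ((le_max_left r 0).trans (le_max_right _ _))
    have f1 := DPP_one p.1 q.1 (χ q.1) δ _ (by linarith) (by linarith) hb.2 hδ0 hR0 c1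
    have f2 := DPP_one p.2 q.2 (χ q.1) δ _ (by linarith) (by linarith) hb.2 hδ0 hr0 c2
    rw [Prod.norm_def]
    exact max_le f1 f2
  · intro m r
    exact DPP_upper lsm hK hχ m r
  · intro r p q hr h
    refine ciSup_le fun γ => ?_
    refine (norm_sub_le _ _).trans ?_
    linarith [(h γ).1, (h γ).2]

end

end Pool.Agent.VD
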