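import Pool.Agent.helper55.VD.SpecE1

/-!
# Row vd:EHG (MP_07c750_an): Green's formula
-/

set_option autoImplicit false

open scoped ContDiff Topology InnerProductSpace ComplexConjugate
open MeasureTheory Filter Set

namespace Pool.Agent.VD

noncomputable section

/-- the vector field -/
def EHG_F {d : ℕ} (G : V d → V d →L[ℝ] V d) (φ : V d → ℂ) (i : Fin d) (y : V d) : ℂ :=
  ((dens G y : ℝ) : ℂ) * fderiv ℝ φ y ((G y).inverse (EuclideanSpace.single i 1))

theorem EHG_smooth {d : ℕ} {G : V d → V d →L[ℝ] V d} {φ : V d → ℂ} (h1 : ContDiff ℝ ∞ (dens G))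
    (h2 : ContDiff ℝ ∞ (fun x => (G x).inverse)) (hφ : ContDiff ℝ 2 φ) (i : Fin d) : ContDiff ℝ 1 (EHG_F G φ i) := by
  unfold EHG_F
  refine ContDiff.mul ?_ ?_
  · exact (Complex.ofRealCLM.contDiff.comp h1).of_le (by exact_mod_cast le_top)
  · refine ContDiff.clm_apply (hφ.fderiv_right (m := 1) (by norm_num)) ?_
    exact (h2.clm_apply contDiff_const).of_le (by exact_mod_cast le_top)

theorem EHG_lap {d : ℕ} {G : V d → V d →L[ℝ] V d} (φ : V d → ℂ) (x : V d) (h : 0 < dens G x) :
    lap G φ x * ((dens G x : ℝ) : ℂ) = ∑ i : Fin d, fderiv ℝ (EHG_F G φ i) x (EuclideanSpace.single i 1) := by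
  have h0 : ((dens G x : ℝ) : ℂ) ≠ 0 := by
    exact_mod_cast h.ne'
  unfold lap
  show (((dens G x)⁻¹ : ℝ) : ℂ) * (∑ i : Fin d, fderiv ℝ (EHG_F G φ i) x (EuclideanSpace.single i 1)) * ((dens G x : ℝ) : ℂ) = _
  rw [Complex.ofReal_inv, mul_comm (((dens G x : ℝ) : ℂ))⁻¹, mul_assoc, inv_mul_cancel₀ h0, mul_one]

/-- continuous functions with compact support are integrable -/
theorem EHG_int {d : ℕ} {f g : V d → ℂ} (hf : Continuous f) (hg : Continuous g) (hs : HasCompactSupport g) :
    Integrable (fun x => f x * g x) :=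
  (hf.mul hg).integrable_of_hasCompactSupport hs.mul_left

theorem EHG_int' {d : ℕ} {f g : V d → ℂ} (hf : Continuous f) (hg : Continuous g) (hs : HasCompactSupport f) :
    Integrable (fun x => f x * g x) :=
  (hf.mul hg).integrable_of_hasCompactSupport hs.mul_right

theorem EHG_cont {d : ℕ} {f : V d → ℂ} (hf : ContDiff ℝ 1 f) (v : V d) : Continuous fun x => fderiv ℝ f x v :=
  (hf.continuous_fderiv (by norm_num)).clm_apply continuous_const

theorem EHG_supp {d : ℕ} {f : V d → ℂ} (hf : HasCompactSupport f) (v : V d) : HasCompactSupport fun x => fderiv ℝ f x v :=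
  (hf.fderiv (𝕜 := ℝ)).comp_left (g := fun L : V d →L[ℝ] ℂ => L v) rfl

theorem EHG_expand {d : ℕ} (A : V d →L[ℝ] V d) (hA : ∀ u v, ⟪A u, v⟫_ℝ = ⟪u, A v⟫_ℝ) (L L' : V d →L[ℝ] ℂ) :
    ∑ i : Fin d, L (A (EuclideanSpace.single i 1)) * L' (EuclideanSpace.single i 1) =
      ∑ i : Fin d, L (EuclideanSpace.single i 1) * L' (A (EuclideanSpace.single i 1)) := by
  have hexp : ∀ (M : V d →L[ℝ] ℂ) (u : V d), M u = ∑ j : Fin d, ((u j : ℝ) : ℂ) * M (EuclideanSpace.single j 1) := by
    intro M u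
    have h1 : u = ∑ j : Fin d, (u j) • (EuclideanSpace.single j (1 : ℝ) : V d) := by
      ext k
      simp [Finset.sum_apply, Pi.single_apply]
    conv_lhs => rw [h1]
    rw [map_sum]
    refine Finset.sum_congr rfl fun j _ => ?_
    rw [map_smul]
    exact Complex.real_smul
  have hsym : ∀ i j : Fin d, (A (EuclideanSpace.single i 1)) j = (A (EuclideanSpace.single j 1)) i := by
    intro i j
    have h1 := hA (EuclideanSpace.single i 1) (EuclideanSpace.single j 1)
    rw [EuclideanSpace.inner_single_right, EuclideanSpace.inner_single_left] at h1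
    simpa using h1
  have e1 : ∀ i : Fin d, L (A (EuclideanSpace.single i 1)) * L' (EuclideanSpace.single i 1) =
      ∑ j : Fin d, (((A (EuclideanSpace.single i 1)) j : ℝ) : ℂ) * (L (EuclideanSpace.single j 1) * L' (EuclideanSpace.single i 1)) := by
    intro i
    rw [hexp L (A (EuclideanSpace.single i 1)), Finset.sum_mul]
    refine Finset.sum_congr rfl fun j _ => ?_
    ring
  have e2 : ∀ i : Fin d, L (EuclideanSpace.single i 1) * L' (A (EuclideanSpace.single i 1)) =
      ∑ j : Fin d, (((A (EuclideanSpace.single i 1)) j : ℝ) : ℂ) * (L (EuclideanSpace.single i 1) * L' (EuclideanSpace.single j 1)) := by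
    intro i
    rw [hexp L' (A (EuclideanSpace.single i 1)), Finset.mul_sum]
    refine Finset.sum_congr rfl fun j _ => ?_
    ring
  rw [Finset.sum_congr rfl fun i _ => e1 i, Finset.sum_congr rfl fun i _ => e2 i, Finset.sum_comm]
  refine Finset.sum_congr rfl fun i _ => Finset.sum_congr rfl fun j _ => ?_
  rw [hsym j i]

theorem EHG_proof (hEHD : EHD_stmt) : EHG_stmt := by
  intro d G φ ψ hG hφ hψ hs
  obtain ⟨hpos, hd, hi, -, hsym, -, -⟩ := hEHD d G hG
  have hFφ : ∀ i, ContDiff ℝ 1 (EHG_F G φ i) := fun i => EHG_smooth hd hi hφ i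
  have hFψ : ∀ i, ContDiff ℝ 1 (EHG_F G ψ i) := fun i => EHG_smooth hd hi hψ i
  have hφ1 : ContDiff ℝ 1 φ := hφ.of_le (by norm_num)
  have hψ1 : ContDiff ℝ 1 ψ := hψ.of_le (by norm_num)
  have hFs : ∀ i, HasCompactSupport (EHG_F G ψ i) := by
    intro i
    refine (hs.fderiv (𝕜 := ℝ)).mono ?_
    intro x hx
    rw [Function.mem_support] at hx ⊢
    intro h0
    apply hx
    unfold EHG_F
    rw [h0]
    simp
  have hL : ∀ x, lap G φ x * ψ x * ((dens G x : ℝ) : ℂ) =
      ∑ i : Fin d, fderiv ℝ (EHG_F G φ i) x (EuclideanSpace.single i 1) * ψ x := by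
    intro x
    rw [← Finset.sum_mul, ← EHG_lap φ x (hpos x).2]
    ring
  have hR : ∀ x, φ x * lap G ψ x * ((dens G x : ℝ) : ℂ) =
      ∑ i : Fin d, φ x * fderiv ℝ (EHG_F G ψ i) x (EuclideanSpace.single i 1) := by
    intro x
    rw [← Finset.mul_sum, ← EHG_lap ψ x (hpos x).2]
    ring
  have iL : ∀ i : Fin d, Integrable (fun x => fderiv ℝ (EHG_F G φ i) x (EuclideanSpace.single i 1) * ψ x) := fun i =>
    EHG_int (EHG_cont (hFφ i) _) hψ1.continuous hs
  have iR : ∀ i : Fin d, Integrable (fun x => φ x * fderiv ℝ (EHG_F G ψ i) x (EuclideanSpace.single i 1)) := fun i =>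
    EHG_int hφ1.continuous (EHG_cont (hFψ i) _) (EHG_supp (hFs i) _)
  have jL : ∀ i : Fin d, Integrable (fun x => EHG_F G φ i x * fderiv ℝ ψ x (EuclideanSpace.single i 1)) := fun i =>
    EHG_int (hFφ i).continuous (EHG_cont hψ1 _) (EHG_supp hs _)
  have jR : ∀ i : Fin d, Integrable (fun x => fderiv ℝ φ x (EuclideanSpace.single i 1) * EHG_F G ψ i x) := fun i =>
    EHG_int (EHG_cont hφ1 _) (hFψ i).continuous (hFs i)
  have pL : ∀ i : Fin d, ∫ x, fderiv ℝ (EHG_F G φ i) x (EuclideanSpace.single i 1) * ψ x =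
      - ∫ x, EHG_F G φ i x * fderiv ℝ ψ x (EuclideanSpace.single i 1) := by
    intro i
    have h := integral_mul_fderiv_eq_neg_fderiv_mul_of_integrable (iL i) (jL i)
      (EHG_int (hFφ i).continuous hψ1.continuous hs)
      (fun x _ => (hFφ i).differentiable (by norm_num) x) (fun x _ => hψ1.differentiable (by norm_num) x)
    rw [h, neg_neg]
  have pR : ∀ i : Fin d, ∫ x, φ x * fderiv ℝ (EHG_F G ψ i) x (EuclideanSpace.single i 1) =
      - ∫ x, fderiv ℝ φ x (EuclideanSpace.single i 1) * EHG_F G ψ i x := by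
    intro i
    exact integral_mul_fderiv_eq_neg_fderiv_mul_of_integrable (jR i) (iR i)
      (EHG_int hφ1.continuous (hFψ i).continuous (hFs i))
      (fun x _ => hφ1.differentiable (by norm_num) x) (fun x _ => (hFψ i).differentiable (by norm_num) x)
  rw [integral_congr_ae (Eventually.of_forall hL), integral_congr_ae (Eventually.of_forall hR),
    integral_finsetSum _ fun i _ => iL i, integral_finsetSum _ fun i _ => iR i,
    Finset.sum_congr rfl fun i _ => pL i, Finset.sum_congr rfl fun i _ => pR i,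
    Finset.sum_neg_distrib, Finset.sum_neg_distrib, ← integral_finsetSum _ fun i _ => jL i, ← integral_finsetSum _ fun i _ => jR i]
  congr 1
  refine integral_congr_ae (Eventually.of_forall fun x => ?_)
  show (∑ i : Fin d, EHG_F G φ i x * fderiv ℝ ψ x (EuclideanSpace.single i 1)) =
    ∑ i : Fin d, fderiv ℝ φ x (EuclideanSpace.single i 1) * EHG_F G ψ i x
  have key := EHG_expand (G x).inverse (hsym x) (fderiv ℝ φ x) (fderiv ℝ ψ x)
  have e1 : (∑ i : Fin d, EHG_F G φ i x * fderiv ℝ ψ x (EuclideanSpace.single i 1)) = ((dens G x : ℝ) : ℂ) *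
      ∑ i : Fin d, fderiv ℝ φ x ((G x).inverse (EuclideanSpace.single i 1)) * fderiv ℝ ψ x (EuclideanSpace.single i 1) := by
    rw [Finset.mul_sum]
    refine Finset.sum_congr rfl fun i _ => ?_
    unfold EHG_F
    ring
  have e2 : (∑ i : Fin d, fderiv ℝ φ x (EuclideanSpace.single i 1) * EHG_F G ψ i x) = ((dens G x : ℝ) : ℂ) *
      ∑ i : Fin d, fderiv ℝ φ x (EuclideanSpace.single i 1) * fderiv ℝ ψ x ((G x).inverse (EuclideanSpace.single i 1)) := by
    rw [Finset.mul_sum]
    refine Finset.sum_congr rfl fun i _ => ?_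
    unfold EHG_F
    ring
  rw [e1, e2, key]

end

end Pool.Agent.VD
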