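import Pool.Agent.helper80.VD.SpecF

/-!
# Row vd:GFL (MP_07c750_an): existence of the geodesic flow
-/

set_option autoImplicit false

open scoped ContDiff Topology InnerProductSpace
open MeasureTheory Filter Set

namespace Pool.Agent.VD

noncomputable section

theorem GFL_proof (hGXH : GXH_stmt) (hGGC : GGC_stmt) (hFCP : FCP_stmt) : GFL_stmt := by
  intro d Γ _ _ K G hK hG hI
  obtain ⟨-, hX, -⟩ := hGXH d G hG
  obtain ⟨Φ, hΦ, hs, -⟩ := hFCP (P d) (XH G) hX (hGGC d Γ K G hK hG hI)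
  exact ⟨Φ, ⟨hs, hΦ.zero, hΦ.add, fun t p => hΦ.ode p t⟩⟩

end

end Pool.Agent.VD
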