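import Pool.Agent.helper93.VD.SpecB1

/-!
# Row vd:NRC (MP_07c750_an): recentering
-/

set_option autoImplicit false

open scoped ContDiff Topology InnerProductSpace
open MeasureTheory Filter Set

namespace Pool.Agent.VD

noncomputable section

theorem NRC_proof : NRC_stmt := by
  intro m c C e0 F p q hF hp
  have hfd : ∀ x : Z m, fderiv ℝ (fun x => F (p + x) - q) x = fderiv ℝ F (p + x) := by
    intro x
    rw [fderiv_sub_const, fderiv_comp_add_left]
  have hball : ∀ x ∈ Metric.ball (0 : Z m) (e0 / 2), p + x ∈ Metric.ball (0 : Z m) e0 := by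
    intro x hx
    rw [mem_ball_zero_iff] at hx ⊢
    have := norm_add_le p x
    linarith
  refine ⟨?_, ?_, ?_⟩
  · refine ContDiffOn.sub ?_ contDiffOn_const
    exact hF.cd.comp (contDiffOn_const.add contDiffOn_id) (fun x hx => hball x hx)
  · intro a ha
    rw [hfd]
    exact hF.lh _ (hball a ha)
  · intro a ha b hb
    rw [hfd, hfd]
    have h := hF.lip _ (hball a ha) _ (hball b hb)
    rwa [add_sub_add_left_eq_sub] at h

end

end Pool.Agent.VD
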