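import Pool.Agent.helper99.VD.SpecV

/-!
# Row vd:UTP (MP_07c750_an): two geodesics which are close at two times
-/

set_option autoImplicit false

open scoped ContDiff Topology InnerProductSpace ENNReal
open MeasureTheory Filter Set

namespace Pool.Agent.VD

noncomputable section

/-- The constants. -/
def UTP_B3 (A : ℝ) : ℝ := 202 * A ^ 5
def UTP_B4 (A : ℝ) : ℝ := A ^ 2 * UTP_B3 A + 22 * A ^ 2 + 11 * A ^ 6
def UTP_B5 (A : ℝ) : ℝ := UTP_B3 A + A * UTP_B4 A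
def UTP_B6 (A : ℝ) : ℝ := A * UTP_B5 A + A ^ 3

theorem UTP_s2 {E : Type} [NormedAddCommGroup E] [NormedSpace ℝ E] (p1 q1 x y vp vq : E) (A u u' δ : ℝ)
    (hA : 1 ≤ A) (hδ0 : 0 ≤ δ) (h1 : ‖p1 - q1‖ ≤ A * δ) (h2 : ‖x - y‖ ≤ δ) (h3 : ‖x - p1 - u • vp‖ ≤ A * u ^ 2)
    (h4 : ‖y - q1 - u' • vq‖ ≤ A * u' ^ 2) : ‖u • vp - u' • vq‖ ≤ 2 * A * (δ + u ^ 2 + u' ^ 2) := by
  have e : u • vp - u' • vq = (x - y) - (p1 - q1) - (x - p1 - u • vp) + (y - q1 - u' • vq) := by abel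
  rw [e]
  have t1 := norm_add_le ((x - y) - (p1 - q1) - (x - p1 - u • vp)) (y - q1 - u' • vq)
  have t2 := norm_sub_le ((x - y) - (p1 - q1)) (x - p1 - u • vp)
  have t3 := norm_sub_le (x - y) (p1 - q1)
  have t4 : δ ≤ A * δ := by nlinarith
  have t5 : 0 ≤ A * u ^ 2 := by positivity
  have t6 : 0 ≤ A * u' ^ 2 := by positivity
  nlinarith

theorem UTP_s3 {E : Type} [NormedAddCommGroup E] [NormedSpace ℝ E] (vp vq : E) (A u u' δ : ℝ)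
    (hA : 1 ≤ A) (hu : 0 < u) (hu1 : u ≤ 1) (hu' : 2 * A ^ 2 * |u'| ≤ 1 / 2) (hδu : δ ≤ u)
    (h : ‖u • vp - u' • vq‖ ≤ 2 * A * (δ + u ^ 2 + u' ^ 2)) (h5 : ‖vp‖ ≤ A) (h7 : 1 / A ≤ ‖vq‖) :
    |u'| ≤ 10 * A ^ 2 * u := by
  have hA0 : 0 < A := by linarith
  obtain ⟨a, ha⟩ : ∃ a : ℝ, a = |u'| := ⟨_, rfl⟩
  have ha0 : 0 ≤ a := by rw [ha]; exact abs_nonneg _
  have ha2 : u' ^ 2 = a ^ 2 := by rw [ha, sq_abs]
  rw [← ha] at hu' ⊢
  rw [ha2] at h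
  have e1 : a * ‖vq‖ ≤ u * A + 2 * A * (δ + u ^ 2 + a ^ 2) := by
    have t1 : a * ‖vq‖ = ‖u' • vq‖ := by rw [norm_smul, Real.norm_eq_abs, ha]
    have t2 : ‖u' • vq‖ ≤ ‖u • vp‖ + ‖u • vp - u' • vq‖ := by
      have := norm_sub_le (u • vp) (u • vp - u' • vq)
      rwa [sub_sub_cancel] at this
    have t3 : ‖u • vp‖ ≤ u * A := by
      rw [norm_smul, Real.norm_of_nonneg hu.le]
      exact mul_le_mul_of_nonneg_left h5 hu.le
    linarith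
  have e2 : 1 ≤ A * ‖vq‖ := by
    rw [div_le_iff₀ hA0] at h7
    linarith
  have e3 : a ≤ A * (a * ‖vq‖) := by
    have : a * 1 ≤ a * (A * ‖vq‖) := mul_le_mul_of_nonneg_left e2 ha0
    linarith
  have e4 : A * (a * ‖vq‖) ≤ A * (u * A + 2 * A * (δ + u ^ 2 + a ^ 2)) := mul_le_mul_of_nonneg_left e1 hA0.le
  have e5 : 2 * A ^ 2 * a ^ 2 ≤ a / 2 := by
    have := mul_le_mul_of_nonneg_right hu' ha0
    nlinarith
  have e6 : u ^ 2 ≤ u := by nlinarith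
  have hA2 : 0 ≤ A ^ 2 := by positivity
  have e7 : A ^ 2 * δ ≤ A ^ 2 * u := mul_le_mul_of_nonneg_left hδu hA2
  have e8 : A ^ 2 * u ^ 2 ≤ A ^ 2 * u := mul_le_mul_of_nonneg_left e6 hA2
  nlinarith

theorem UTP_s3b (A u u' δ : ℝ) (hA : 1 ≤ A) (hδ0 : 0 ≤ δ) (ha : |u'| ≤ 10 * A ^ 2 * u) :
    2 * A * (δ + u ^ 2 + u' ^ 2) ≤ UTP_B3 A * (δ + u ^ 2) := by
  have hA0 : 0 < A := by linarith
  have h1 : u' ^ 2 ≤ 100 * A ^ 4 * u ^ 2 := by
    rw [← sq_abs u']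
    have := pow_le_pow_left₀ (abs_nonneg u') ha 2
    have e : (10 * A ^ 2 * u) ^ 2 = 100 * A ^ 4 * u ^ 2 := by ring
    rwa [e] at this
  have h2 : A ≤ A ^ 5 := by
    have : A ^ 1 ≤ A ^ 5 := pow_le_pow_right₀ hA (by norm_num)
    simpa using this
  have h3 : 2 * A * u' ^ 2 ≤ 2 * A * (100 * A ^ 4 * u ^ 2) := mul_le_mul_of_nonneg_left h1 (by positivity)
  have h4 : A * δ ≤ A ^ 5 * δ := mul_le_mul_of_nonneg_right h2 hδ0
  have h5 : A * u ^ 2 ≤ A ^ 5 * u ^ 2 := mul_le_mul_of_nonneg_right h2 (sq_nonneg u)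
  have h6 : 0 ≤ A ^ 5 * δ := by positivity
  unfold UTP_B3
  have e : 2 * A * (100 * A ^ 4 * u ^ 2) = 200 * (A ^ 5 * u ^ 2) := by ring
  rw [e] at h3
  nlinarith

theorem UTP_s4 {E : Type} [NormedAddCommGroup E] [InnerProductSpace ℝ E] (G0 G1 : E →L[ℝ] E) (vp vq : E)
    (A u u' δ e : ℝ) (hA : 1 ≤ A) (hu : 0 < u) (hu1 : u ≤ 1) (hδ0 : 0 ≤ δ) (he : 0 ≤ e)
    (hsym : ∀ v w, ⟪G0 v, w⟫_ℝ = ⟪v, G0 w⟫_ℝ) (h5 : ‖vp‖ ≤ A) (h6 : ‖vq‖ ≤ A)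
    (h8 : |⟪G0 vp, vp⟫_ℝ - 1| ≤ 2 * e) (h9 : |⟪G1 vq, vq⟫_ℝ - 1| ≤ 2 * e) (h10 : ‖G0 - G1‖ ≤ A * (A * δ))
    (h11 : ‖G0‖ ≤ A) (ha : |u'| ≤ 10 * A ^ 2 * u) (hd : ‖u • vp - u' • vq‖ ≤ UTP_B3 A * (δ + u ^ 2)) :
    |u - (|u'|)| ≤ UTP_B4 A * (δ + u ^ 2 + e * u) := by
  have hA0 : 0 < A := by linarith
  have hB3 : 0 ≤ UTP_B3 A := by unfold UTP_B3; positivity
  have hid : ⟪G0 (u • vp - u' • vq), u • vp + u' • vq⟫_ℝ = u ^ 2 * ⟪G0 vp, vp⟫_ℝ - u' ^ 2 * ⟪G0 vq, vq⟫_ℝ := by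
    have hs : ⟪G0 vq, vp⟫_ℝ = ⟪G0 vp, vq⟫_ℝ := by rw [hsym vq vp, real_inner_comm]
    simp only [map_sub, map_smul, inner_sub_left, inner_add_right, real_inner_smul_left, real_inner_smul_right, hs]
    ring
  have hu'n : ‖u' • vq‖ ≤ |u'| * A := by
    rw [norm_smul, Real.norm_eq_abs]
    exact mul_le_mul_of_nonneg_left h6 (abs_nonneg _)
  have hun : ‖u • vp‖ ≤ u * A := by
    rw [norm_smul, Real.norm_of_nonneg hu.le]
    exact mul_le_mul_of_nonneg_left h5 hu.le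
  obtain ⟨a, ha'⟩ : ∃ a : ℝ, a = |u'| := ⟨_, rfl⟩
  have ha0 : 0 ≤ a := by rw [ha']; exact abs_nonneg _
  have ha2 : u' ^ 2 = a ^ 2 := by rw [ha', sq_abs]
  rw [← ha'] at ha hu'n ⊢
  rw [ha2] at hid
  have hT : |⟪G0 (u • vp - u' • vq), u • vp + u' • vq⟫_ℝ| ≤ A ^ 2 * UTP_B3 A * (δ + u ^ 2) * (u + a) := by
    refine (abs_real_inner_le_norm _ _).trans ?_
    have t1 : ‖G0 (u • vp - u' • vq)‖ ≤ A * (UTP_B3 A * (δ + u ^ 2)) :=
      (G0.le_opNorm _).trans (mul_le_mul h11 hd (norm_nonneg _) hA0.le)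
    have t2 : ‖u • vp + u' • vq‖ ≤ (u + a) * A := by
      refine (norm_add_le _ _).trans ?_
      linarith
    refine (mul_le_mul t1 t2 (norm_nonneg _) (by positivity)).trans (le_of_eq ?_)
    ring
  have hg1 : |⟪G0 vq, vq⟫_ℝ - 1| ≤ 2 * e + A ^ 4 * δ := by
    have t1 : ⟪G0 vq, vq⟫_ℝ - 1 = (⟪G1 vq, vq⟫_ℝ - 1) + ⟪(G0 - G1) vq, vq⟫_ℝ := by
      rw [sub_apply, inner_sub_left]
      ring
    rw [t1]
    refine (abs_add_le _ _).trans (add_le_add h9 ?_)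
    refine (abs_real_inner_le_norm _ _).trans ?_
    have t2 : ‖(G0 - G1) vq‖ ≤ A * (A * δ) * A := ((G0 - G1).le_opNorm _).trans
      (mul_le_mul h10 h6 (norm_nonneg _) (by positivity))
    refine (mul_le_mul t2 h6 (norm_nonneg _) (by positivity)).trans (le_of_eq ?_)
    ring
  obtain ⟨T, hTe⟩ : ∃ T : ℝ, T = ⟪G0 (u • vp - u' • vq), u • vp + u' • vq⟫_ℝ := ⟨_, rfl⟩
  rw [← hTe] at hid hT
  generalize ⟪G0 vp, vp⟫_ℝ = g0 at h8 hid
  generalize ⟪G0 vq, vq⟫_ℝ = g1 at hg1 hid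
  obtain ⟨S, hS⟩ : ∃ S : ℝ, S = A ^ 2 * UTP_B3 A * (δ + u ^ 2) := ⟨_, rfl⟩
  rw [← hS] at hT
  obtain ⟨W, hW⟩ : ∃ W : ℝ, W = 2 * e + A ^ 4 * δ := ⟨_, rfl⟩
  rw [← hW] at hg1
  have hW0 : 0 ≤ W := by rw [hW]; positivity
  have hWe : 2 * e ≤ W := by
    rw [hW]
    have : 0 ≤ A ^ 4 * δ := by positivity
    linarith
  have hua : 0 < u + a := by linarith
  have key : |u - a| * (u + a) ≤ (S + (u + a) * W) * (u + a) := by
    have t0 : |u - a| * (u + a) = |u ^ 2 - a ^ 2| := by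
      have : u ^ 2 - a ^ 2 = (u - a) * (u + a) := by ring
      rw [this, abs_mul, abs_of_pos hua]
    have t1 : u ^ 2 - a ^ 2 = T - u ^ 2 * (g0 - 1) + a ^ 2 * (g1 - 1) := by rw [hid]; ring
    rw [t0, t1]
    have t2 : |T - u ^ 2 * (g0 - 1) + a ^ 2 * (g1 - 1)| ≤ |T| + u ^ 2 * |g0 - 1| + a ^ 2 * |g1 - 1| := by
      refine (abs_add_le _ _).trans ?_
      refine add_le_add ((abs_sub _ _).trans ?_) ?_
      · rw [abs_mul, abs_of_nonneg (sq_nonneg u)]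
      · rw [abs_mul, abs_of_nonneg (sq_nonneg a)]
    have t3 : u ^ 2 * |g0 - 1| ≤ u ^ 2 * W := mul_le_mul_of_nonneg_left (h8.trans hWe) (sq_nonneg u)
    have t4 : a ^ 2 * |g1 - 1| ≤ a ^ 2 * W := mul_le_mul_of_nonneg_left hg1 (sq_nonneg a)
    have t5 : (u ^ 2 + a ^ 2) * W ≤ (u + a) ^ 2 * W := by
      refine mul_le_mul_of_nonneg_right ?_ hW0
      have : 0 ≤ u * a := mul_nonneg hu.le ha0
      nlinarith
    calc |T - u ^ 2 * (g0 - 1) + a ^ 2 * (g1 - 1)| ≤ |T| + u ^ 2 * |g0 - 1| + a ^ 2 * |g1 - 1| := t2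
      _ ≤ S * (u + a) + (u ^ 2 + a ^ 2) * W := by linarith
      _ ≤ S * (u + a) + (u + a) ^ 2 * W := by linarith
      _ = (S + (u + a) * W) * (u + a) := by ring
  have key2 : |u - a| ≤ S + (u + a) * W := le_of_mul_le_mul_right key hua
  refine key2.trans ?_
  have hA2 : 1 ≤ A ^ 2 := one_le_pow₀ hA
  have hua2 : u + a ≤ 11 * A ^ 2 * u := by nlinarith
  have h20 : (u + a) * W ≤ 11 * A ^ 2 * u * W := mul_le_mul_of_nonneg_right hua2 hW0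
  have h21 : 11 * A ^ 2 * u * W = 22 * A ^ 2 * (e * u) + 11 * A ^ 6 * (u * δ) := by rw [hW]; ring
  have h22 : 11 * A ^ 6 * (u * δ) ≤ 11 * A ^ 6 * δ := by
    refine mul_le_mul_of_nonneg_left ?_ (by positivity)
    nlinarith
  have h23 : 0 ≤ e * u := mul_nonneg he hu.le
  have h24 : 0 ≤ u ^ 2 := sq_nonneg u
  have hB : UTP_B4 A * (δ + u ^ 2 + e * u) = S + A ^ 2 * UTP_B3 A * (e * u) + 22 * A ^ 2 * (δ + u ^ 2 + e * u) +
      11 * A ^ 6 * (δ + u ^ 2 + e * u) := by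
    rw [hS]; unfold UTP_B4; ring
  rw [hB]
  have n1 : 0 ≤ A ^ 2 * UTP_B3 A * (e * u) := by positivity
  have n2 : 22 * A ^ 2 * (e * u) ≤ 22 * A ^ 2 * (δ + u ^ 2 + e * u) :=
    mul_le_mul_of_nonneg_left (by linarith) (by positivity)
  have n3 : 11 * A ^ 6 * δ ≤ 11 * A ^ 6 * (δ + u ^ 2 + e * u) :=
    mul_le_mul_of_nonneg_left (by linarith) (by positivity)
  linarith

theorem UTP_core {E : Type} [NormedAddCommGroup E] [InnerProductSpace ℝ E] (G0 G1 : E →L[ℝ] E) (p1 q1 x y vp vq : E)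
    (A u u' δ e : ℝ) (hA : 1 ≤ A) (hu : 0 < u) (hu1 : u ≤ 1) (hu' : 2 * A ^ 2 * |u'| ≤ 1 / 2) (hδ0 : 0 ≤ δ)
    (hδu : δ ≤ u) (he : 0 ≤ e) (hsym : ∀ v w, ⟪G0 v, w⟫_ℝ = ⟪v, G0 w⟫_ℝ) (h1 : ‖p1 - q1‖ ≤ A * δ) (h2 : ‖x - y‖ ≤ δ)
    (h3 : ‖x - p1 - u • vp‖ ≤ A * u ^ 2) (h4 : ‖y - q1 - u' • vq‖ ≤ A * u' ^ 2)
    (h5 : ‖vp‖ ≤ A) (h6 : ‖vq‖ ≤ A) (h7 : 1 / A ≤ ‖vq‖)
    (h8 : |⟪G0 vp, vp⟫_ℝ - 1| ≤ 2 * e) (h9 : |⟪G1 vq, vq⟫_ℝ - 1| ≤ 2 * e) (h10 : ‖G0 - G1‖ ≤ A * (A * δ))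
    (h11 : ‖G0‖ ≤ A) :
    ∃ σ : ℝ, (σ = 1 ∨ σ = -1) ∧ ‖G0 vp - σ • G1 vq‖ ≤ UTP_B6 A * (δ / u + u + e) := by
  have hA0 : 0 < A := by linarith
  have s2 := UTP_s2 p1 q1 x y vp vq A u u' δ hA hδ0 h1 h2 h3 h4
  have s3 := UTP_s3 vp vq A u u' δ hA hu hu1 hu' hδu s2 h5 h7
  have s3b := s2.trans (UTP_s3b A u u' δ hA hδ0 s3)
  have s4 := UTP_s4 G0 G1 vp vq A u u' δ e hA hu hu1 hδ0 he hsym h5 h6 h8 h9 h10 h11 s3 s3b
  have hB3 : 0 ≤ UTP_B3 A := by unfold UTP_B3; positivity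
  have hB4 : 0 ≤ UTP_B4 A := by unfold UTP_B4; positivity
  have hB5 : 0 ≤ UTP_B5 A := by unfold UTP_B5; positivity
  obtain ⟨σ, hσ, hσu⟩ : ∃ σ : ℝ, (σ = 1 ∨ σ = -1) ∧ u' = σ * |u'| := by
    rcases le_total 0 u' with h | h
    · exact ⟨1, Or.inl rfl, by rw [abs_of_nonneg h, one_mul]⟩
    · exact ⟨-1, Or.inr rfl, by rw [abs_of_nonpos h]; ring⟩
  have hσ1 : |σ| = 1 := by
    rcases hσ with h | h <;> rw [h] <;> norm_num
  refine ⟨σ, hσ, ?_⟩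
  have s5 : u * ‖vp - σ • vq‖ ≤ UTP_B5 A * (δ + u ^ 2 + e * u) := by
    have t1 : u • (vp - σ • vq) = (u • vp - u' • vq) + (u' - σ * u) • vq := by
      rw [smul_sub, smul_smul, sub_smul, mul_comm u σ]; abel
    have t2 : ‖(u' - σ * u) • vq‖ ≤ UTP_B4 A * (δ + u ^ 2 + e * u) * A := by
      rw [norm_smul]
      refine mul_le_mul ?_ h6 (norm_nonneg _) (by positivity)
      have : ‖u' - σ * u‖ = |u - (|u'|)| := by
        have e1 : u' - σ * u = -(σ * (u - |u'|)) := by rw [mul_sub, ← hσu]; ring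
        rw [e1, norm_neg, Real.norm_eq_abs, abs_mul, hσ1, one_mul]
      rw [this]
      exact s4
    have t3 : u * ‖vp - σ • vq‖ = ‖u • (vp - σ • vq)‖ := by rw [norm_smul, Real.norm_of_nonneg hu.le]
    rw [t3, t1]
    refine (norm_add_le _ _).trans ?_
    have t4 : UTP_B3 A * (δ + u ^ 2) ≤ UTP_B3 A * (δ + u ^ 2 + e * u) := by
      refine mul_le_mul_of_nonneg_left ?_ hB3
      have : 0 ≤ e * u := mul_nonneg he hu.le
      linarith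
    have t5 : UTP_B5 A * (δ + u ^ 2 + e * u) = UTP_B3 A * (δ + u ^ 2 + e * u) +
        UTP_B4 A * (δ + u ^ 2 + e * u) * A := by unfold UTP_B5; ring
    rw [t5]
    linarith
  have s6 : ‖vp - σ • vq‖ ≤ UTP_B5 A * (δ / u + u + e) := by
    have t1 : UTP_B5 A * (δ + u ^ 2 + e * u) = u * (UTP_B5 A * (δ / u + u + e)) := by
      field_simp
    rw [t1] at s5
    exact le_of_mul_le_mul_left s5 hu
  have hdu : δ ≤ δ / u := by
    rw [le_div_iff₀ hu]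
    nlinarith
  have hX : δ ≤ δ / u + u + e := by linarith
  have t1 : G0 vp - σ • G1 vq = G0 (vp - σ • vq) + σ • (G0 - G1) vq := by
    rw [map_sub, map_smul, sub_apply, smul_sub]; abel
  rw [t1]
  refine (norm_add_le _ _).trans ?_
  have t2 : ‖G0 (vp - σ • vq)‖ ≤ A * (UTP_B5 A * (δ / u + u + e)) :=
    (G0.le_opNorm _).trans (mul_le_mul h11 s6 (norm_nonneg _) hA0.le)
  have t3 : ‖σ • (G0 - G1) vq‖ ≤ A ^ 3 * (δ / u + u + e) := by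
    rw [norm_smul, Real.norm_eq_abs, hσ1, one_mul]
    refine ((G0 - G1).le_opNorm _).trans ?_
    refine (mul_le_mul h10 h6 (norm_nonneg _) (by positivity)).trans ?_
    have : A * (A * δ) * A = A ^ 3 * δ := by ring
    rw [this]
    exact mul_le_mul_of_nonneg_left hX (by positivity)
  have t4 : UTP_B6 A * (δ / u + u + e) = A * (UTP_B5 A * (δ / u + u + e)) + A ^ 3 * (δ / u + u + e) := by
    unfold UTP_B6; ring
  rw [t4]
  linarith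

theorem UTP_proof (hUTA : UTA_stmt) (hUVL : UVL_stmt) (hUNK : UNK_stmt) (hDVV : DVV_stmt) (hDPP : DPP_stmt) (hGEQ : GEQ_stmt) (hGHL : GHL_stmt) (hGLF : GLF_stmt) : UTP_stmt := by
  intro d Γ _ _ K k B χ hK hχ
  obtain ⟨hnk, Ca, ca, m, hCa, hca0, hca8, hm, hnear, -⟩ := hUNK d Γ K χ hK hχ
  obtain ⟨Cb, hCb, hTA⟩ := hUTA d Γ K k B hK m
  obtain ⟨Cc, hCc, hVL⟩ := hUVL d Γ K k B hK m
  obtain ⟨-, hdP0, -, -, -, hdPinv, -, -, -, hdPup, -⟩ := hDPP d Γ K χ hK hχ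
  obtain ⟨-, hdV0, -, -, -, hdVinv, -, -, -, -, -⟩ := hDVV d Γ K χ hK hχ
  obtain ⟨Cd, hCd, hup⟩ := hdPup m Cc
  -- the common constant
  obtain ⟨A, hAdef⟩ : ∃ A : ℝ, A = max Ca (max Cb Cc) := ⟨_, rfl⟩
  have hAa : Ca ≤ A := by rw [hAdef]; exact le_max_left _ _
  have hAb : Cb ≤ A := by rw [hAdef]; exact (le_max_left _ _).trans (le_max_right _ _)
  have hAc : Cc ≤ A := by rw [hAdef]; exact (le_max_right _ _).trans (le_max_right _ _)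
  have hA : 1 ≤ A := hCa.trans hAa
  have hA0 : 0 < A := by linarith
  have hB6 : A ≤ UTP_B6 A := by
    have t1 : 0 ≤ A * UTP_B5 A := by unfold UTP_B5 UTP_B4 UTP_B3; positivity
    have t2 : A ≤ A ^ 3 := by
      have : A ^ 1 ≤ A ^ 3 := pow_le_pow_right₀ hA (by norm_num)
      simpa using this
    unfold UTP_B6
    linarith
  have hC1 : 1 ≤ Cd * UTP_B6 A := by
    have : 1 ≤ UTP_B6 A := hA.trans hB6
    nlinarith
  have h4A : 0 < 1 / (4 * A ^ 2) := by positivity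
  refine ⟨Cd * UTP_B6 A, min (1 / 8) (min ca (1 / (4 * A ^ 2))), hC1,
    lt_min (by norm_num) (lt_min hca0 h4A), min_le_left _ _, ?_⟩
  obtain ⟨c0, hc0⟩ : ∃ c0 : ℝ, c0 = min (1 / 8) (min ca (1 / (4 * A ^ 2))) := ⟨_, rfl⟩
  have hc8 : c0 ≤ 1 / 8 := by rw [hc0]; exact min_le_left _ _
  have hcca : c0 ≤ ca := by rw [hc0]; exact (min_le_right _ _).trans (min_le_left _ _)
  have hcA : c0 ≤ 1 / (4 * A ^ 2) := by rw [hc0]; exact (min_le_right _ _).trans (min_le_right _ _)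
  have hcA2 : 4 * A ^ 2 * c0 ≤ 1 := by
    rw [le_div_iff₀ (by positivity)] at hcA
    linarith
  have hA2 : A ≤ A ^ 2 := by nlinarith
  rw [← hc0]
  intro G Φ hG hΦ
  obtain ⟨hV1, hV2, hV3⟩ := hVL G hG
  have hTA' := hTA G Φ hG hΦ
  -- the local statement
  have loc : ∀ (p q : P d) (u u' δ e : ℝ), p.1 ∈ K → |Ep G p| ≤ e → |Ep G q| ≤ e → e ≤ c0 → 0 < u → u ≤ c0 →
      |u'| ≤ c0 → 0 ≤ δ → Cd * UTP_B6 A * δ ≤ u → dV Γ χ p.1 q.1 ≤ δ → dV Γ χ (Φ u p).1 (Φ u' q).1 ≤ δ →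
        dP Γ χ p q ≤ Cd * UTP_B6 A * (δ / u + u + e) ∨ dP Γ χ p (rev q) ≤ Cd * UTP_B6 A * (δ / u + u + e) := by
    intro p q u u' δ e hpK hEp hEq hec hu huc hu'c hδ0 hCδ hd1 hd2
    have hδu : δ ≤ u := by nlinarith
    have he0 : 0 ≤ e := (abs_nonneg _).trans hEp
    have hpt : p.1 ∈ Metric.cthickening 1 K := Metric.self_subset_cthickening K hpK
    have hpm : ‖p.1‖ ≤ m := hm _ hpt
    have hc00 : 0 < c0 := lt_of_lt_of_le hu huc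
    have hAc0 : A * c0 ≤ 1 / 4 := by nlinarith
    obtain ⟨n1, -⟩ := hnear p.1 q.1 hpK (by linarith)
    have hpq : ‖p.1 - q.1‖ ≤ A * δ := by
      refine n1.trans ?_
      exact mul_le_mul hAa hd1 (hdV0 _ _) hA0.le
    have hAδ : A * δ ≤ 1 / 4 := by nlinarith
    have hqt : q.1 ∈ Metric.cthickening 1 K := by
      refine Metric.mem_cthickening_of_dist_le q.1 p.1 1 K hpK ?_
      rw [dist_eq_norm, norm_sub_rev]
      linarith
    have hqm : ‖q.1‖ ≤ m := hm _ hqt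
    have hnp : nrm G p ≤ 3 / 2 := (hV1 p).2.2.2.1 (by linarith)
    have hnq : nrm G q ≤ 3 / 2 := (hV1 q).2.2.2.1 (by linarith)
    have hua : |u| = u := abs_of_pos hu
    obtain ⟨a1, a2⟩ := hTA' p u hpm hnp (by rw [hua]; linarith)
    obtain ⟨b1, b2⟩ := hTA' q u' hqm hnq (by linarith)
    have a1' : ‖(Φ u p).1 - p.1 - u • vel G p‖ ≤ A * u ^ 2 :=
      a1.trans (mul_le_mul_of_nonneg_right hAb (sq_nonneg _))
    have b1' : ‖(Φ u' q).1 - q.1 - u' • vel G q‖ ≤ A * u' ^ 2 :=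
      b1.trans (mul_le_mul_of_nonneg_right hAb (sq_nonneg _))
    have a2' : ‖(Φ u p).1 - p.1‖ ≤ 1 / 4 := by
      refine a2.trans ?_
      have : Cb * |u| ≤ A * c0 := mul_le_mul hAb (by rw [hua]; exact huc) (abs_nonneg _) hA0.le
      linarith
    have b2' : ‖(Φ u' q).1 - q.1‖ ≤ 1 / 4 := by
      refine b2.trans ?_
      have : Cb * |u'| ≤ A * c0 := mul_le_mul hAb hu'c (abs_nonneg _) hA0.le
      linarith
    have hxt : (Φ u p).1 ∈ Metric.cthickening 1 K := by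
      refine Metric.mem_cthickening_of_dist_le _ p.1 1 K hpK ?_
      rw [dist_eq_norm]
      linarith
    have hyt : (Φ u' q).1 ∈ Metric.cthickening 1 K := by
      refine Metric.mem_cthickening_of_dist_le _ p.1 1 K hpK ?_
      rw [dist_eq_norm]
      have e1 : (Φ u' q).1 - p.1 = ((Φ u' q).1 - q.1) - (p.1 - q.1) := by abel
      rw [e1]
      refine (norm_sub_le _ _).trans ?_
      linarith
    have hxy : ‖(Φ u p).1 - (Φ u' q).1‖ ≤ δ := (hnk _ _ hxt hyt).trans hd2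
    have hEp8 : |Ep G p| ≤ 1 / 8 := by linarith
    have hEq8 : |Ep G q| ≤ 1 / 8 := by linarith
    obtain ⟨-, vp2, vp3⟩ := hV2 p hpm hEp8
    obtain ⟨vq1, vq2, vq3⟩ := hV2 q hqm hEq8
    have vq1' : 1 / A ≤ ‖vel G q‖ := by
      refine le_trans ?_ vq1
      exact one_div_le_one_div_of_le (by linarith) hAc
    obtain ⟨g1, g2, -⟩ := hV3 p.1 q.1 hpm hqm
    have hgp : |⟪G p.1 (vel G p), vel G p⟫_ℝ - 1| ≤ 2 * e := by
      rw [(hV1 p).2.1]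
      have : 1 + 2 * Ep G p - 1 = 2 * Ep G p := by ring
      rw [this, abs_mul, abs_two]
      linarith
    have hgq : |⟪G q.1 (vel G q), vel G q⟫_ℝ - 1| ≤ 2 * e := by
      rw [(hV1 q).2.1]
      have : 1 + 2 * Ep G q - 1 = 2 * Ep G q := by ring
      rw [this, abs_mul, abs_two]
      linarith
    have hGd : ‖G p.1 - G q.1‖ ≤ A * (A * δ) := by
      refine g1.trans ?_
      exact mul_le_mul hAc hpq (norm_nonneg _) hA0.le
    have hu'2 : 2 * A ^ 2 * |u'| ≤ 1 / 2 := by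
      have : 2 * A ^ 2 * |u'| ≤ 2 * A ^ 2 * c0 := mul_le_mul_of_nonneg_left hu'c (by positivity)
      linarith
    obtain ⟨σ, hσ, hfin⟩ := UTP_core (G p.1) (G q.1) p.1 q.1 (Φ u p).1 (Φ u' q).1 (vel G p) (vel G q) A u u' δ e hA hu
      (by linarith) hu'2 hδ0 hδu he0 (hG.met.symm p.1) hpq hxy a1' b1' (vp2.trans hAc) (vq2.trans hAc) vq1' hgp hgq
      hGd (g2.trans hAc)
    rw [(hV1 p).2.2.1, (hV1 q).2.2.1] at hfin
    have hdu : δ ≤ δ / u := by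
      rw [le_div_iff₀ hu]
      nlinarith
    have hX : δ ≤ δ / u + u + e := by linarith
    have hpq1 : ‖p.1 - q.1‖ ≤ UTP_B6 A * (δ / u + u + e) := by
      refine hpq.trans ?_
      exact mul_le_mul hB6 hX hδ0 (hA0.le.trans hB6)
    rcases hσ with rfl | rfl
    · left
      rw [one_smul] at hfin
      have : ‖p - q‖ ≤ UTP_B6 A * (δ / u + u + e) := by
        rw [Prod.norm_def]
        exact max_le hpq1 hfin
      refine (hup p q hpm hqm vp3 vq3).trans ?_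
      rw [mul_assoc]
      exact mul_le_mul_of_nonneg_left this (by linarith)
    · right
      have e1 : p.2 - (-1 : ℝ) • q.2 = p.2 - (rev q).2 := by
        rw [neg_smul, one_smul]
        rfl
      rw [e1] at hfin
      have : ‖p - rev q‖ ≤ UTP_B6 A * (δ / u + u + e) := by
        rw [Prod.norm_def]
        exact max_le hpq1 hfin
      refine (hup p (rev q) hpm hqm vp3 ?_).trans ?_
      · have : ‖(rev q).2‖ = ‖q.2‖ := norm_neg _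
        rw [this]
        exact vq3
      · rw [mul_assoc]
        exact mul_le_mul_of_nonneg_left this (by linarith)
  intro p q u u' δ e hEp hEq hec hu huc hu'c hδ0 hCδ hd1 hd2
  obtain ⟨γ, hγ⟩ := hK.cover p.1
  have hHam : ∀ z : P d, Ep G (lft γ z) = Ep G z := by
    intro z
    unfold Ep
    rw [((hGHL d Γ G hG.met hK.smooth hG.isom).1 γ z).1]
  have hflow : ∀ (t : ℝ) (z : P d), Φ t (lft γ z) = lft γ (Φ t z) := fun t z =>
    hGEQ d Γ G Φ hG.met hK.smooth hG.isom hΦ γ t z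
  have hrev : rev (lft γ q) = lft γ (rev q) := by
    simp [lft, rev]
  have h := loc (lft γ p) (lft γ q) u u' δ e hγ (by rw [hHam]; exact hEp) (by rw [hHam]; exact hEq) hec hu huc hu'c hδ0
    hCδ (by
      have : dV Γ χ (lft γ p).1 (lft γ q).1 = dV Γ χ p.1 q.1 := hdVinv γ p.1 q.1
      rw [this]
      exact hd1) (by
      rw [hflow, hflow]
      have : dV Γ χ (lft γ (Φ u p)).1 (lft γ (Φ u' q)).1 = dV Γ χ (Φ u p).1 (Φ u' q).1 := hdVinv γ _ _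
      rw [this]
      exact hd2)
  rw [hrev, hdPinv, hdPinv] at h
  exact h

end

end Pool.Agent.VD
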